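import Pool.Agent.H13.L.S8.H21R2.Criterion

namespace Pool.Agent.H21R2

open Finset

/-- the converse: every sofic group satisfies the weighted criterion (even on finite sets, with
constant weight). -/
theorem weighted_of_isSofic {G : Type*} [Group G] (h : IsSofic G) :
    WeightedCriterion.{0} G := by
  classical
  intro A h1A g hg hg1 ε hε
  set δ := min (ε / 4) (1 / 2) with hδ
  have hδpos : 0 < δ := lt_min (by positivity) (by norm_num)
  have hδ1 : δ ≤ ε / 4 := min_le_left _ _
  have hδ2 : δ ≤ 1 / 2 := min_le_right _ _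
  obtain ⟨n, hn, φ, h1, h2, h3⟩ := h A h1A δ hδpos
  have hn0 : (0 : ℝ) < n := by exact_mod_cast hn
  let f : Fin n →₀ ℝ := Finsupp.equivFunOnFinite.symm (fun _ => 1)
  have hf : ∀ y, f y = 1 := fun y => rfl
  have hsupp : f.support = univ := by
    ext y; simp [hf]
  have hmass : ∀ (P : Fin n → Prop) [DecidablePred P], mass f P = ((univ.filter P).card : ℝ) := by
    intro P _
    rw [mass_eq_sum f P univ (by simp)]
    simp [hf]
  have hsig : 1 / 2 * n ≤ mass f (fun y => φ g y ≠ y) := by
    rw [hmass]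
    have := h3 g hg hg1
    rw [hamm, le_div_iff₀ hn0] at this
    have h4 : (1 - δ) * n ≤ ((univ.filter fun y => φ g y ≠ y).card : ℝ) := this
    nlinarith
  refine ⟨Fin n, φ, f, h1, by nlinarith, ?_, ?_⟩
  · intro a _
    have : energy f (φ a) = 0 := by
      simp [energy, hf]
    rw [this]
    nlinarith
  · intro a ha b hb hab
    rw [hmass]
    have := h2 a ha b hb hab
    rw [hamm, div_lt_iff₀ hn0] at this
    have h4 : ((univ.filter fun y => φ (a * b) y ≠ φ a (φ b y)).card : ℝ) < δ * n := this
    have h5 : δ * n ≤ ε / 4 * n := mul_le_mul_of_nonneg_right hδ1 hn0.le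
    have h6 := mul_le_mul_of_nonneg_left hsig hε.le
    nlinarith [h4, h5, h6, mul_pos hε hn0]

/-- the energy is invariant under adding a label coordinate -/
theorem energy_eq_sum {Y : Type*} (f : Y →₀ ℝ) (σ : Equiv.Perm Y) (D : Finset Y)
    (hD : ∀ y, y ∉ D → f y = 0 ∧ f (σ y) = 0) :
    energy f σ = ∑ y ∈ D, (f (σ y) - f y) ^ 2 := by
  rw [energy, tsum_eq_sum (s := D)]
  intro y hy
  obtain ⟨h1, h2⟩ := hD y hy
  rw [h1, h2]; simp

/-- **Labelled version**: `G` acts on `Y` with a cocycle into a sofic group `L`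
(equivalently `G` maps to the unrestricted permutational wreath product of `L` over `Y`). -/
theorem isSofic_of_labelled {G L Y : Type*} [Group G] [Group L] [MulAction G Y]
    (hL : IsSofic L) (c : G → Y → L) (hc : ∀ a b y, c (a * b) y = c a (b • y) * c b y)
    (H : ∀ A : Finset G, ∀ g : G, g ≠ 1 → ∀ ε : ℝ, 0 < ε → ∃ f : Y →₀ ℝ,
      0 < mass f (fun y => g • y ≠ y ∨ c g y ≠ 1) ∧
      ∀ a ∈ A, energy f (MulAction.toPerm a) ≤ ε * mass f (fun y => g • y ≠ y ∨ c g y ≠ 1)) :
    IsSofic G := by
  classical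
  apply isSofic_of_weighted
  intro A h1A g hg hg1 ε hε
  obtain ⟨f, hf1, hf2⟩ := H A g hg1 (ε / 2) (by positivity)
  set s := mass f (fun y => g • y ≠ y ∨ c g y ≠ 1) with hs
  set S := f.support with hS
  set T : ℝ := ∑ y ∈ S, f y ^ 2 with hT
  have hT0 : 0 ≤ T := sum_nonneg fun _ _ => sq_nonneg _
  set D : Finset Y := S ∪ A.biUnion (fun b => S.image (fun y => b • y)) with hD
  have hSD : S ⊆ D := subset_union_left
  have hbD : ∀ b ∈ A, ∀ y ∈ S, b • y ∈ D := by
    intro b hb y hy
    simp only [hD, mem_union, mem_biUnion, mem_image]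
    exact Or.inr ⟨b, hb, y, hy, rfl⟩
  set B : Finset L := insert 1 (A.biUnion fun a => D.image fun y => c a y) with hB
  have h1B : (1 : L) ∈ B := mem_insert_self _ _
  have hcB : ∀ a ∈ A, ∀ y ∈ D, c a y ∈ B := by
    intro a ha y hy
    simp only [hB, mem_insert, mem_biUnion, mem_image]
    exact Or.inr ⟨a, ha, y, hy, rfl⟩
  set δ : ℝ := min (1 / 2) (ε * s / (2 * (T + 1))) with hδ
  have hδpos : 0 < δ := lt_min (by norm_num) (by positivity)
  have hδ1 : δ ≤ 1 / 2 := min_le_left _ _
  have hδ2 : δ * T ≤ ε * s / 2 := by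
    have h1 : δ ≤ ε * s / (2 * (T + 1)) := min_le_right _ _
    calc δ * T ≤ ε * s / (2 * (T + 1)) * T := mul_le_mul_of_nonneg_right h1 hT0
      _ ≤ ε * s / (2 * (T + 1)) * (T + 1) := by
          apply mul_le_mul_of_nonneg_left (by linarith)
          positivity
      _ = ε * s / 2 := by field_simp
  obtain ⟨n, hn, σ, hσ1, hσ2, hσ3⟩ := hL B h1B δ hδpos
  have hn0 : (0 : ℝ) < n := by exact_mod_cast hn
  have hc1 : ∀ y, c 1 y = 1 := by
    intro y
    have := hc 1 1 y
    rw [mul_one, one_smul] at this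
    exact (left_eq_mul.mp this)
  let Ψ : G → Equiv.Perm (Y × Fin n) := fun a =>
    { toFun := fun p => (a • p.1, σ (c a p.1) p.2)
      invFun := fun p => (a⁻¹ • p.1, (σ (c a (a⁻¹ • p.1))).symm p.2)
      left_inv := by
        rintro ⟨y, v⟩
        simp
      right_inv := by
        rintro ⟨y, v⟩
        simp }
  have hΨ : ∀ a y v, Ψ a (y, v) = (a • y, σ (c a y) v) := fun a y v => rfl
  let F : Y × Fin n →₀ ℝ := Finsupp.onFinset (S ×ˢ univ) (fun p => f p.1) (by
    rintro ⟨y, v⟩ h
    simpa [hS] using h)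
  have hF : ∀ y v, F (y, v) = f y := fun y v => rfl
  -- masses
  have hmassF : ∀ (P : Y × Fin n → Prop) [DecidablePred P], mass F P =
      ∑ y ∈ S, f y ^ 2 * ((univ.filter fun v => P (y, v)).card : ℝ) := by
    intro P _
    rw [mass_eq_sum F P (S ×ˢ univ) (Finsupp.support_onFinset_subset), sum_filter, sum_product]
    refine sum_congr rfl fun y _ => ?_
    simp only [hF]
    rw [← sum_filter, sum_const, nsmul_eq_mul, mul_comm]
  have hsE : s = ∑ y ∈ S, (if (g • y ≠ y ∨ c g y ≠ 1) then f y ^ 2 else 0) := by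
    rw [hs, mass_eq_sum f _ S (by rw [hS]), sum_filter]
  have hsig : 1 / 2 * n * s ≤ mass F (fun p => Ψ g p ≠ p) := by
    rw [hmassF, hsE, mul_sum]
    refine sum_le_sum fun y hy => ?_
    split_ifs with hcase
    · have hcount : 1 / 2 * (n : ℝ) ≤ ((univ.filter fun v => Ψ g (y, v) ≠ (y, v)).card : ℝ) := by
        by_cases hmove : g • y ≠ y
        · have : (univ.filter fun v => Ψ g (y, v) ≠ (y, v)) = univ := by
            ext v
            simp only [hΨ, mem_filter, mem_univ, true_and, iff_true, ne_eq, Prod.mk.injEq, not_and]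
            intro h; exact absurd h hmove
          rw [this]; simp; linarith
        · have hcg : c g y ≠ 1 := by
            rcases hcase with h | h
            · exact absurd h hmove
            · exact h
          have := hσ3 (c g y) (hcB g hg y (hSD hy)) hcg
          rw [hamm, le_div_iff₀ hn0] at this
          have h4 : (1 - δ) * n ≤ ((univ.filter fun v => σ (c g y) v ≠ v).card : ℝ) := this
          have h5 : (univ.filter fun v => σ (c g y) v ≠ v) ⊆
              (univ.filter fun v => Ψ g (y, v) ≠ (y, v)) := by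
            intro v hv
            simp only [hΨ, mem_filter, mem_univ, true_and, ne_eq, Prod.mk.injEq, not_and] at hv ⊢
            intro _; exact hv
          have h6 : ((univ.filter fun v => σ (c g y) v ≠ v).card : ℝ) ≤
            ((univ.filter fun v => Ψ g (y, v) ≠ (y, v)).card : ℝ) := by
              exact_mod_cast card_le_card h5
          nlinarith
      nlinarith [sq_nonneg (f y), mul_le_mul_of_nonneg_left hcount (sq_nonneg (f y))]
    · rw [mul_zero]; positivity
  have hsigpos : 0 < mass F (fun p => Ψ g p ≠ p) := by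
    have : 0 < 1 / 2 * n * s := by positivity
    linarith
  refine ⟨Y × Fin n, Ψ, F, ?_, hsigpos, ?_, ?_⟩
  · ext1 ⟨y, v⟩
    rw [hΨ, hc1, hσ1, one_smul]; rfl
  · intro a ha
    set D' : Finset Y := S ∪ S.image (fun y => a⁻¹ • y) with hD'
    have hD1 : ∀ y, y ∉ D' → f y = 0 ∧ f (a • y) = 0 := by
      intro y hy
      simp only [hD', mem_union, mem_image, not_or, not_exists, not_and] at hy
      refine ⟨by simpa [hS] using hy.1, ?_⟩
      by_contra h
      exact hy.2 (a • y) (by simpa [hS] using h) (by simp)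
    have e1 : energy f (MulAction.toPerm a) = ∑ y ∈ D', (f (a • y) - f y) ^ 2 :=
      energy_eq_sum f _ D' hD1
    have e2 : energy F (Ψ a) = n * energy f (MulAction.toPerm a) := by
      rw [energy_eq_sum F (Ψ a) (D' ×ˢ univ), e1, sum_product, mul_sum]
      · refine sum_congr rfl fun y _ => ?_
        simp only [hΨ, hF]
        simp
      · rintro ⟨y, v⟩ hyv
        have : y ∉ D' := by simpa using hyv
        rw [hΨ, hF, hF]
        exact hD1 y this
    rw [e2]
    have h1 := mul_le_mul_of_nonneg_left (hf2 a ha) hn0.le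
    have h2 := mul_le_mul_of_nonneg_left hsig hε.le
    nlinarith [h1, h2]
  · intro a ha b hb hab
    have h1 : mass F (fun p => Ψ (a * b) p ≠ Ψ a (Ψ b p)) ≤ δ * n * T := by
      rw [hmassF, hT, mul_sum]
      refine sum_le_sum fun y hy => ?_
      have h2 : (univ.filter fun v => Ψ (a * b) (y, v) ≠ Ψ a (Ψ b (y, v))) =
          univ.filter fun v => σ (c a (b • y) * c b y) v ≠ σ (c a (b • y)) (σ (c b y) v) := by
        ext v
        simp only [hΨ, mem_filter, mem_univ, true_and, ne_eq, Prod.mk.injEq, mul_smul,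
          hc a b y]
      rw [h2]
      have h3 := hσ2 (c a (b • y)) (hcB a ha _ (hbD b hb y hy)) (c b y) (hcB b hb y (hSD hy))
        (by rw [← hc a b y]; exact hcB (a * b) hab y (hSD hy))
      rw [hamm, div_lt_iff₀ hn0] at h3
      have h4 : ((univ.filter fun v => σ (c a (b • y) * c b y) v ≠
        σ (c a (b • y)) (σ (c b y) v)).card : ℝ) < δ * n := h3
      nlinarith [mul_le_mul_of_nonneg_left h4.le (sq_nonneg (f y))]
    have h5 : δ * n * T ≤ n * (ε * s / 2) := by
      have := mul_le_mul_of_nonneg_left hδ2 hn0.le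
      linarith
    have h6 := mul_le_mul_of_nonneg_left hsig hε.le
    nlinarith [h1, h5, h6]

end Pool.Agent.H21R2
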