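import Pool.Agent.H13.L.S8.H21R2.Defs

/-!
The weighted criterion, finite part.
-/

namespace Pool.Agent.H21R2

open Finset

theorem exists_perm_extend {α : Type*} [Fintype α] [DecidableEq α] (s : Finset α) (f : α → α)
    (hf : Set.InjOn f s) : ∃ σ : Equiv.Perm α, ∀ i ∈ s, σ i = f i := by
  obtain ⟨g, hg⟩ := Finset.exists_equiv_extend_of_card_eq (α := α) (β := α)
    (t := (univ : Finset α)) (by simp) (s := s) (f := f) (by simp) hf
  refine ⟨g.trans (Equiv.subtypeUnivEquiv (by simp)), fun i hi => ?_⟩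
  simpa using hg i hi

section Discretize

variable {Z : Type*}

/-- the number of copies of `z` -/
noncomputable def mult (M : ℕ) (w : Z → ℝ) (z : Z) : ℕ := ⌊(M : ℝ) * w z⌋₊

theorem mult_le (M : ℕ) (w : Z → ℝ) (hw : ∀ z, 0 ≤ w z) (z : Z) :
    (mult M w z : ℝ) ≤ M * w z :=
  Nat.floor_le (mul_nonneg (Nat.cast_nonneg _) (hw z))

theorem lt_mult_add_one (M : ℕ) (w : Z → ℝ) (z : Z) : (M * w z : ℝ) < mult M w z + 1 :=
  Nat.lt_floor_add_one _

/-- the finite set of copies -/
abbrev Omega (m : Z → ℕ) := Σ z : Z, Fin (m z)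

/-- Discretisation: weights can be turned into honest finite sets. -/
theorem discretize [Fintype Z] [DecidableEq Z] {G : Type*} [Group G] (A : Finset G) (Φ : G → Equiv.Perm Z) (hΦ1 : Φ 1 = 1)
    (w : Z → ℝ) (hw : ∀ z, 0 ≤ w z) (hw1 : ∑ z, w z = 1) (ε : ℝ) (hε : 0 < ε) (hε1 : ε ≤ 1)
    (hE : ∀ a ∈ A, ∑ z, |w (Φ a z) - w z| ≤ ε / 16)
    (he : ∀ a ∈ A, ∀ b ∈ A, a * b ∈ A →
      ∑ z ∈ univ.filter (fun z => Φ (a * b) z ≠ Φ a (Φ b z)), w z ≤ ε / 16)
    (hs : ∀ g ∈ A, g ≠ 1 → ∑ z ∈ univ.filter (fun z => Φ g z = z), w z ≤ ε / 16) :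
    ∃ n : ℕ, 1 ≤ n ∧ ∃ φ : G → Equiv.Perm (Fin n),
      φ 1 = 1 ∧
      (∀ a ∈ A, ∀ b ∈ A, a * b ∈ A → hamm (φ (a * b)) (φ a * φ b) < ε) ∧
      ∀ a ∈ A, a ≠ 1 → 1 - ε ≤ hamm (φ a) 1 := by
  classical
  obtain ⟨M, hM⟩ := exists_nat_gt ((Fintype.card Z : ℝ) * (16 / ε))
  have hMZ : (Fintype.card Z : ℝ) ≤ M * (ε / 16) := by
    have : (Fintype.card Z : ℝ) * (16 / ε) * (ε / 16) ≤ M * (ε / 16) :=
      mul_le_mul_of_nonneg_right hM.le (by positivity)
    have h2 : (Fintype.card Z : ℝ) * (16 / ε) * (ε / 16) = Fintype.card Z := by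
      field_simp
    linarith
  have hZ : 0 < Fintype.card Z := by
    rcases isEmpty_or_nonempty Z with h | h
    · simp at hw1
    · exact Fintype.card_pos
  have hZ' : (1 : ℝ) ≤ Fintype.card Z := by exact_mod_cast hZ
  have hM0 : (0 : ℝ) < M := by
    have : (0 : ℝ) < Fintype.card Z * (16 / ε) := by positivity
    linarith
  set m : Z → ℕ := mult M w with hm
  have hmle : ∀ z, (m z : ℝ) ≤ M * w z := mult_le M w hw
  have hmlt : ∀ z, (M * w z : ℝ) < m z + 1 := lt_mult_add_one M w
  have hcard : (Fintype.card (Omega m) : ℝ) = ∑ z, (m z : ℝ) := by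
    simp [Omega]
  have hcard_ge : (M : ℝ) * (15 / 16) ≤ Fintype.card (Omega m) := by
    rw [hcard]
    have h1 : ∑ z, (M * w z : ℝ) ≤ ∑ z, ((m z : ℝ) + 1) :=
      sum_le_sum fun z _ => (hmlt z).le
    rw [← mul_sum, hw1, sum_add_distrib] at h1
    simp at h1
    nlinarith
  have hΩpos : (0 : ℝ) < Fintype.card (Omega m) := by nlinarith
  -- partial maps
  let S : G → Finset (Omega m) := fun a => univ.filter fun ω => (ω.2 : ℕ) < m (Φ a ω.1)
  let e : G → (Omega m) → (Omega m) := fun a ω =>
    if h : (ω.2 : ℕ) < m (Φ a ω.1) then ⟨Φ a ω.1, ⟨ω.2, h⟩⟩ else ω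
  have heS : ∀ a ω, ω ∈ S a → (e a ω).1 = Φ a ω.1 ∧ ((e a ω).2 : ℕ) = ω.2 := by
    intro a ω hω
    have h : (ω.2 : ℕ) < m (Φ a ω.1) := by simpa [S] using hω
    have h2 : e a ω = ⟨Φ a ω.1, ⟨ω.2, h⟩⟩ := dif_pos h
    rw [h2]
    exact ⟨rfl, rfl⟩
  have hΩext : ∀ ω ω' : (Omega m), ω.1 = ω'.1 → (ω.2 : ℕ) = ω'.2 → ω = ω' := by
    rintro ⟨z, j⟩ ⟨z', j'⟩ h1 h2
    simp only at h1
    subst h1
    congr
    exact Fin.ext h2
  have hinj : ∀ a, Set.InjOn (e a) (S a) := by
    intro a ω hω ω' hω' h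
    obtain ⟨h1, h2⟩ := heS a ω hω
    obtain ⟨h1', h2'⟩ := heS a ω' hω'
    apply hΩext
    · apply (Φ a).injective
      rw [← h1, ← h1', h]
    · rw [← h2, ← h2', h]
  choose σ hσ using fun a => exists_perm_extend (S a) (e a) (hinj a)
  have hσ1 : σ 1 = 1 := by
    ext1 ω
    have hω : ω ∈ S 1 := by
      simp [S, hΦ1]
    rw [hσ 1 ω hω]
    obtain ⟨h1, h2⟩ := heS 1 ω hω
    apply hΩext
    · rw [h1, hΦ1]; rfl
    · simpa using h2
  -- bad sets
  let B : G → Finset (Omega m) := fun a => univ.filter fun ω => ω ∉ S a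
  have hBcard : ∀ a ∈ A, ((B a).card : ℝ) ≤ M * (ε / 16) + M * (ε / 16) := by
    intro a ha
    have h1 : (B a).card = ∑ z, (m z - m (Φ a z)) := by
      have : (B a) = univ.sigma (fun z : Z => univ.filter fun j : Fin (m z) => ¬ (j : ℕ) < m (Φ a z)) := by
        ext ⟨z, j⟩
        simp [B, S]
      rw [this, card_sigma]
      refine sum_congr rfl fun z _ => ?_
      have := Finset.card_filter_add_card_filter_not (s := (univ : Finset (Fin (m z))))
        (fun j : Fin (m z) => (j : ℕ) < m (Φ a z))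
      have h3 : (univ.filter fun j : Fin (m z) => (j : ℕ) < m (Φ a z)).card = min (m z) (m (Φ a z)) := by
        rw [Fin.card_filter_val_lt]
      rw [h3, Finset.card_univ, Fintype.card_fin] at this
      omega
    rw [h1]
    push_cast
    have h2 : ∀ z, ((m z - m (Φ a z) : ℕ) : ℝ) ≤ M * |w (Φ a z) - w z| + 1 := by
      intro z
      rcases le_total (m z) (m (Φ a z)) with h | h
      · rw [Nat.sub_eq_zero_of_le h]
        simp
        positivity
      · rw [Nat.cast_sub h]
        have := hmle z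
        have h4 := hmlt (Φ a z)
        have h5 : w z - w (Φ a z) ≤ |w (Φ a z) - w z| := by
          rw [abs_sub_comm]; exact le_abs_self _
        nlinarith [mul_le_mul_of_nonneg_left h5 hM0.le]
    calc ∑ z, ((m z - m (Φ a z) : ℕ) : ℝ) ≤ ∑ z, (M * |w (Φ a z) - w z| + 1) :=
          sum_le_sum fun z _ => h2 z
      _ = M * ∑ z, |w (Φ a z) - w z| + Fintype.card Z := by
          rw [sum_add_distrib, ← mul_sum]; simp
      _ ≤ M * (ε / 16) + M * (ε / 16) := by
          have := mul_le_mul_of_nonneg_left (hE a ha) hM0.le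
          linarith
  have hfib : ∀ (P : Z → Prop) [DecidablePred P], (∑ z ∈ univ.filter P, w z ≤ ε / 16) →
      (((univ.filter fun ω : (Omega m) => P ω.1).card : ℝ)) ≤ M * (ε / 16) := by
    intro P _ hP
    have h1 : (univ.filter fun ω : (Omega m) => P ω.1).card = ∑ z ∈ univ.filter P, m z := by
      have : (univ.filter fun ω : (Omega m) => P ω.1) = (univ.filter P).sigma (fun z : Z => (univ : Finset (Fin (m z)))) := by
        ext ⟨z, j⟩
        simp
      rw [this, card_sigma]
      simp
    rw [h1]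
    push_cast
    calc ∑ z ∈ univ.filter P, (m z : ℝ) ≤ ∑ z ∈ univ.filter P, M * w z :=
          sum_le_sum fun z _ => hmle z
      _ = M * ∑ z ∈ univ.filter P, w z := by rw [mul_sum]
      _ ≤ M * (ε / 16) := mul_le_mul_of_nonneg_left hP hM0.le
  -- transport to Fin n
  let n := Fintype.card (Omega m)
  let E : (Omega m) ≃ Fin n := Fintype.equivFin (Omega m)
  have hn : 1 ≤ n := by
    have : (0 : ℝ) < n := hΩpos
    exact_mod_cast this
  refine ⟨n, hn, fun a => (E.symm.trans (σ a)).trans E, ?_, ?_, ?_⟩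
  · show (E.symm.trans (σ 1)).trans E = 1
    rw [hσ1]
    ext1 i
    simp
  · intro a ha b hb hab
    have hset : (univ.filter fun i : Fin n =>
        ((E.symm.trans (σ (a * b))).trans E) i ≠
        (((E.symm.trans (σ a)).trans E) * ((E.symm.trans (σ b)).trans E)) i).card
        = (univ.filter fun ω : (Omega m) => σ (a * b) ω ≠ σ a (σ b ω)).card := by
      refine card_bij (fun i _ => E.symm i) ?_ ?_ ?_
      · intro i hi
        simp only [mem_filter, mem_univ, true_and] at hi ⊢
        intro h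
        apply hi
        simp [h]
      · intro i _ j _ h
        exact E.symm.injective h
      · intro ω hω
        refine ⟨E ω, ?_, by simp⟩
        simp only [mem_filter, mem_univ, true_and] at hω ⊢
        intro h
        apply hω
        simpa using h
    have hsub : (univ.filter fun ω : (Omega m) => σ (a * b) ω ≠ σ a (σ b ω)) ⊆
        (univ.filter fun ω : (Omega m) => Φ (a * b) ω.1 ≠ Φ a (Φ b ω.1)) ∪ B b ∪ B (a * b) ∪
          (B a).map (σ b).symm.toEmbedding := by
      intro ω hω
      simp only [mem_filter, mem_univ, true_and] at hω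
      by_contra hcon
      simp only [mem_union, not_or, mem_filter, mem_univ, true_and, B, not_not, mem_map,
        Equiv.coe_toEmbedding, not_exists, not_and] at hcon
      obtain ⟨⟨⟨h1, h2⟩, h3⟩, h4⟩ := hcon
      have h5 : σ b ω ∈ S a := by
        by_contra h
        exact h4 (σ b ω) h (by simp)
      apply hω
      rw [hσ _ _ h3, hσ _ _ h5]
      obtain ⟨p1, p2⟩ := heS _ _ h3
      obtain ⟨q1, q2⟩ := heS _ _ h5
      have h6 := hσ _ _ h2
      obtain ⟨r1, r2⟩ := heS _ _ h2
      apply hΩext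
      · rw [p1, q1, h6, r1, h1]
      · rw [p2, q2, h6, r2]
    have hc : ((univ.filter fun ω : (Omega m) => σ (a * b) ω ≠ σ a (σ b ω)).card : ℝ) ≤
        M * (ε / 16) + 3 * (M * (ε / 16) + M * (ε / 16)) := by
      have h1 := card_le_card hsub
      have h2 := (card_union_le ((univ.filter fun ω : (Omega m) => Φ (a * b) ω.1 ≠ Φ a (Φ b ω.1)) ∪ B b ∪ B (a * b))
          ((B a).map (σ b).symm.toEmbedding))
      have h3 := (card_union_le ((univ.filter fun ω : (Omega m) => Φ (a * b) ω.1 ≠ Φ a (Φ b ω.1)) ∪ B b) (B (a * b)))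
      have h4 := (card_union_le (univ.filter fun ω : (Omega m) => Φ (a * b) ω.1 ≠ Φ a (Φ b ω.1)) (B b))
      rw [card_map] at h2
      have h5 : ((univ.filter fun ω : (Omega m) => σ (a * b) ω ≠ σ a (σ b ω)).card : ℝ) ≤
        ((univ.filter fun ω : (Omega m) => Φ (a * b) ω.1 ≠ Φ a (Φ b ω.1)).card : ℝ) + (B b).card + (B (a * b)).card
          + (B a).card := by
        have : (univ.filter fun ω : (Omega m) => σ (a * b) ω ≠ σ a (σ b ω)).card ≤
          (univ.filter fun ω : (Omega m) => Φ (a * b) ω.1 ≠ Φ a (Φ b ω.1)).card + (B b).card + (B (a * b)).card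
          + (B a).card := by omega
        exact_mod_cast this
      have h6 := hfib (fun z => Φ (a * b) z ≠ Φ a (Φ b z)) (he a ha b hb hab)
      have h7 := hBcard b hb
      have h8 := hBcard (a * b) hab
      have h9 := hBcard a ha
      linarith
    rw [hamm, hset, div_lt_iff₀ hΩpos]
    have : ε * (M * (15 / 16)) ≤ ε * Fintype.card (Omega m) := mul_le_mul_of_nonneg_left hcard_ge hε.le
    have hpos : 0 < M * ε := by positivity
    change _ < ε * (Fintype.card (Omega m) : ℝ)
    nlinarith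
  · intro a ha ha1
    have hset : (univ.filter fun i : Fin n =>
        ((E.symm.trans (σ a)).trans E) i ≠ (1 : Equiv.Perm (Fin n)) i).card
        = (univ.filter fun ω : (Omega m) => σ a ω ≠ ω).card := by
      refine card_bij (fun i _ => E.symm i) ?_ ?_ ?_
      · intro i hi
        simp only [mem_filter, mem_univ, true_and] at hi ⊢
        intro h
        apply hi
        simp [h]
      · intro i _ j _ h
        exact E.symm.injective h
      · intro ω hω
        refine ⟨E ω, ?_, by simp⟩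
        simp only [mem_filter, mem_univ, true_and] at hω ⊢
        intro h
        apply hω
        simpa using h
    have hcompl : ((univ.filter fun ω : (Omega m) => σ a ω ≠ ω).card : ℝ) =
        Fintype.card (Omega m) - (univ.filter fun ω : (Omega m) => σ a ω = ω).card := by
      have := Finset.card_filter_add_card_filter_not (s := (univ : Finset (Omega m))) (fun ω => σ a ω = ω)
      have h2 : ((univ.filter fun ω : (Omega m) => σ a ω = ω).card : ℝ) +
        (univ.filter fun ω : (Omega m) => ¬ σ a ω = ω).card = Fintype.card (Omega m) := by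
        exact_mod_cast this
      linarith
    have hsub : (univ.filter fun ω : (Omega m) => σ a ω = ω) ⊆
        (univ.filter fun ω : (Omega m) => Φ a ω.1 = ω.1) ∪ B a := by
      intro ω hω
      simp only [mem_filter, mem_univ, true_and] at hω
      by_contra hcon
      simp only [mem_union, not_or, mem_filter, mem_univ, true_and, B, not_not] at hcon
      obtain ⟨h1, h2⟩ := hcon
      obtain ⟨p1, p2⟩ := heS _ _ h2
      apply h1
      rw [← p1, ← hσ _ _ h2, hω]
    have hc : ((univ.filter fun ω : (Omega m) => σ a ω = ω).card : ℝ) ≤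
        M * (ε / 16) + (M * (ε / 16) + M * (ε / 16)) := by
      have h1 := card_le_card hsub
      have h2 := (card_union_le (univ.filter fun ω : (Omega m) => Φ a ω.1 = ω.1) (B a))
      have h5 : ((univ.filter fun ω : (Omega m) => σ a ω = ω).card : ℝ) ≤
        ((univ.filter fun ω : (Omega m) => Φ a ω.1 = ω.1).card : ℝ) + (B a).card := by
        exact_mod_cast h1.trans h2
      have h6 := hfib (fun z => Φ a z = z) (hs a ha ha1)
      have h7 := hBcard a ha
      linarith
    rw [hamm, hset, hcompl, le_div_iff₀ hΩpos]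
    have : ε * (M * (15 / 16)) ≤ ε * Fintype.card (Omega m) := mul_le_mul_of_nonneg_left hcard_ge hε.le
    have hpos : 0 < M * ε := by positivity
    change (1 - ε) * (Fintype.card (Omega m) : ℝ) ≤ _
    nlinarith

end Discretize

end Pool.Agent.H21R2
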