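import Pool.Agent.H13.L.S8.H21R2.Tensor

namespace Pool.Agent.H21R2

open Finset

theorem mass_nonneg {Y : Type*} (f : Y →₀ ℝ) (P : Y → Prop) : 0 ≤ mass f P :=
  sum_nonneg fun _ _ => sq_nonneg _

theorem mass_eq_sum {Y : Type*} (f : Y →₀ ℝ) (P : Y → Prop) [DecidablePred P] (D : Finset Y)
    (hD : f.support ⊆ D) : mass f P = ∑ y ∈ D.filter P, f y ^ 2 := by
  rw [mass, sum_filter, sum_filter]
  rw [sum_subset hD]
  · refine sum_congr rfl fun y _ => ?_
    by_cases h : P y <;> simp [h]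
  · intro y _ hy
    have : f y = 0 := by simpa using hy
    rw [this]; simp

/-- restriction to a finite set of points -/
theorem to_finite {G : Type*} [Group G] {Y : Type*} (A : Finset G) (φ : G → Equiv.Perm Y)
    (hφ1 : φ 1 = 1) (f : Y →₀ ℝ) :
    ∃ (n : ℕ) (φ' : G → Equiv.Perm (Fin n)) (f' : Fin n → ℝ), φ' 1 = 1 ∧
      (∀ a ∈ A, ∑ y, (f' (φ' a y) - f' y) ^ 2 = energy f (φ a)) ∧
      (∀ a ∈ A, ∀ b ∈ A, a * b ∈ A →
        ∑ y ∈ univ.filter (fun y => φ' (a * b) y ≠ φ' a (φ' b y)), f' y ^ 2 =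
          mass f (fun y => φ (a * b) y ≠ φ a (φ b y))) ∧
      (∀ g ∈ A, ∑ y ∈ univ.filter (fun y => φ' g y ≠ y), f' y ^ 2 =
          mass f (fun y => φ g y ≠ y)) := by
  classical
  set S := f.support with hS
  set D : Finset Y := S ∪ A.biUnion (fun b => S.image (φ b)) ∪ A.biUnion (fun a => S.image (φ a).symm)
    with hD
  have hSD : S ⊆ D := by
    intro y hy; simp only [hD, mem_union]; exact Or.inl (Or.inl hy)
  have hfD : ∀ b ∈ A, ∀ y ∈ S, φ b y ∈ D := by
    intro b hb y hy
    simp only [hD, mem_union, mem_biUnion, mem_image]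
    exact Or.inl (Or.inr ⟨b, hb, y, hy, rfl⟩)
  have hfD' : ∀ a ∈ A, ∀ y, φ a y ∈ S → y ∈ D := by
    intro a ha y hy
    simp only [hD, mem_union, mem_biUnion, mem_image]
    exact Or.inr ⟨a, ha, φ a y, hy, by simp⟩
  set W : Finset Y := D ∪ A.biUnion (fun a => D.image (φ a)) with hW
  have hDW : D ⊆ W := subset_union_left
  have hWa : ∀ a ∈ A, ∀ y ∈ D, φ a y ∈ W := by
    intro a ha y hy
    simp only [hW, mem_union, mem_biUnion, mem_image]
    exact Or.inr ⟨a, ha, y, hy, rfl⟩
  -- permutations of W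
  have hex : ∀ a : G, ∃ σ : Equiv.Perm W, (a = 1 → σ = 1) ∧
      (a ∈ A → ∀ y : W, (y : Y) ∈ D → (σ y : Y) = φ a y) := by
    intro a
    by_cases h1 : a = 1
    · refine ⟨1, fun _ => rfl, fun _ y _ => ?_⟩
      rw [h1, hφ1]; rfl
    · by_cases hA : a ∈ A
      · obtain ⟨σ, hσ⟩ := exists_perm_extend (α := W) (univ.filter fun y : W => (y : Y) ∈ D)
          (fun y => if h : (y : Y) ∈ D then ⟨φ a y, hWa a hA y h⟩ else y) (by
            intro y hy z hz h
            simp only [coe_filter, mem_univ, true_and, Set.mem_ofPred_eq] at hy hz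
            simp only [hy, hz, dif_pos, Subtype.mk.injEq, EmbeddingLike.apply_eq_iff_eq] at h
            exact Subtype.ext h)
        refine ⟨σ, fun h => absurd h h1, fun _ y hy => ?_⟩
        rw [hσ y (by simp [hy])]
        simp [hy]
      · exact ⟨1, fun _ => rfl, fun h => absurd h hA⟩
  choose σ hσ1 hσD using hex
  let E : W ≃ Fin (Fintype.card W) := Fintype.equivFin W
  let τ : G → Equiv.Perm (Fin (Fintype.card W)) := fun a => (E.symm.trans (σ a)).trans E
  refine ⟨Fintype.card W, τ, fun i => f (E.symm i : Y), ?_, ?_, ?_, ?_⟩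
  · show (E.symm.trans (σ 1)).trans E = 1
    rw [hσ1 1 rfl]
    ext1 i
    simp
  · intro a ha
    have h1 : ∑ i, (f ((E.symm (τ a i) : W) : Y) - f ((E.symm i : W) : Y)) ^ 2 =
        ∑ y : W, (f (σ a y : Y) - f (y : Y)) ^ 2 := by
      rw [← Equiv.sum_comp E]
      refine sum_congr rfl fun y _ => ?_
      simp [τ]
    rw [h1, energy, tsum_eq_sum (s := D)]
    · have h2 : ∑ y : W, (f (σ a y : Y) - f (y : Y)) ^ 2 =
          ∑ y ∈ univ.filter (fun y : W => (y : Y) ∈ D), (f (σ a y : Y) - f (y : Y)) ^ 2 := by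
        symm
        apply sum_subset (filter_subset _ _)
        intro y _ hy
        have hyD : (y : Y) ∉ D := by simpa using hy
        have hf0 : f (y : Y) = 0 := by
          by_contra h
          exact hyD (hSD (by simpa [hS] using h))
        have hf1 : f (σ a y : Y) = 0 := by
          by_contra h
          have hs : (σ a y : Y) ∈ S := by simpa [hS] using h
          have hd : (φ a).symm (σ a y : Y) ∈ D := hfD' a ha _ (by simpa using hs)
          have := hσD a ha ⟨(φ a).symm (σ a y : Y), hDW hd⟩ hd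
          simp only [Equiv.apply_symm_apply] at this
          have h3 := (σ a).injective (Subtype.ext this)
          rw [← h3] at hyD
          exact hyD hd
        rw [hf0, hf1]; simp
      rw [h2]
      refine sum_bij (fun y _ => (y : Y)) ?_ ?_ ?_ ?_
      · intro y hy; simpa using hy
      · intro y _ z _ h; exact Subtype.ext h
      · intro y hy
        exact ⟨⟨y, hDW hy⟩, by simpa using hy, rfl⟩
      · intro y hy
        rw [hσD a ha y (by simpa using hy)]
    · intro y hy
      have hf0 : f y = 0 := by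
        by_contra h
        exact hy (hSD (by simpa [hS] using h))
      have hf1 : f (φ a y) = 0 := by
        by_contra h
        exact hy (hfD' a ha y (by simpa [hS] using h))
      rw [hf0, hf1]; simp
  · intro a ha b hb hab
    rw [mass_eq_sum f _ W (hSD.trans hDW)]
    have h1 : ∑ i ∈ univ.filter (fun i => τ (a * b) i ≠ τ a (τ b i)), f ((E.symm i : W) : Y) ^ 2 =
        ∑ y ∈ (univ : Finset W).filter (fun y => σ (a * b) y ≠ σ a (σ b y)), f (y : Y) ^ 2 := by
      refine sum_bij (fun i _ => E.symm i) ?_ ?_ ?_ ?_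
      · intro i hi
        simp only [mem_filter, mem_univ, true_and] at hi ⊢
        intro h
        apply hi
        simp [τ, h]
      · intro i _ j _ h; exact E.symm.injective h
      · intro y hy
        refine ⟨E y, ?_, by simp⟩
        simp only [mem_filter, mem_univ, true_and] at hy ⊢
        intro h
        apply hy
        simpa [τ] using h
      · intro i _; rfl
    rw [h1, sum_filter, sum_filter, ← sum_coe_sort W]
    refine sum_congr rfl fun y _ => ?_
    by_cases hy : (y : Y) ∈ S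
    · have e1 := hσD (a * b) hab y (hSD hy)
      have e2 := hσD b hb y (hSD hy)
      have e3 := hσD a ha (σ b y) (by rw [e2]; exact hfD b hb y hy)
      rw [e2] at e3
      have : (σ (a * b) y ≠ σ a (σ b y)) ↔ (φ (a * b) (y : Y) ≠ φ a (φ b (y : Y))) := by
        rw [← e1, ← e3, ne_eq, ne_eq, Subtype.ext_iff]
      simp only [this]
    · have hf0 : f (y : Y) = 0 := by simpa [hS] using hy
      rw [hf0]; simp
  · intro g hg
    rw [mass_eq_sum f _ W (hSD.trans hDW)]
    have h1 : ∑ i ∈ univ.filter (fun i => τ g i ≠ i), f ((E.symm i : W) : Y) ^ 2 =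
        ∑ y ∈ (univ : Finset W).filter (fun y => σ g y ≠ y), f (y : Y) ^ 2 := by
      refine sum_bij (fun i _ => E.symm i) ?_ ?_ ?_ ?_
      · intro i hi
        simp only [mem_filter, mem_univ, true_and] at hi ⊢
        intro h
        apply hi
        simp [τ, h]
      · intro i _ j _ h; exact E.symm.injective h
      · intro y hy
        refine ⟨E y, ?_, by simp⟩
        simp only [mem_filter, mem_univ, true_and] at hy ⊢
        intro h
        apply hy
        simpa [τ] using h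
      · intro i _; rfl
    rw [h1, sum_filter, sum_filter, ← sum_coe_sort W]
    refine sum_congr rfl fun y _ => ?_
    by_cases hy : (y : Y) ∈ S
    · have e1 := hσD g hg y (hSD hy)
      have : (σ g y ≠ y) ↔ (φ g (y : Y) ≠ y) := by
        rw [← e1, ne_eq, ne_eq, Subtype.ext_iff]
      simp only [this]
    · have hf0 : f (y : Y) = 0 := by simpa [hS] using hy
      rw [hf0]; simp

/-- combine the data for the different elements of `A` -/
theorem isSofic_of_weighted.{u, v} (G : Type v) [Group G] (h : WeightedCriterion.{u, v} G) :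
    IsSofic G := by
  classical
  intro A h1A ε₀ hε₀
  -- reduce to ε ≤ 1
  set ε := min ε₀ 1 with hεdef
  have hε : 0 < ε := lt_min hε₀ one_pos
  have hε1 : ε ≤ 1 := min_le_right _ _
  have hεε : ε ≤ ε₀ := min_le_left _ _
  -- the constants
  obtain ⟨K, hK, hK1⟩ : ∃ K : ℝ, 0 < K ∧ Real.exp (-K) ≤ ε / 16 := by
    refine ⟨max 1 (-Real.log (ε / 16)), by positivity, ?_⟩
    rw [← Real.le_log_iff_exp_le (by positivity)]
    have := le_max_right 1 (-Real.log (ε / 16))
    linarith
  set C : ℝ := A.card + 1 with hC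
  have hCpos : 0 < C := by positivity
  set ε' : ℝ := (ε / 32) ^ 2 / (K * C) with hε'
  have hε'pos : 0 < ε' := by positivity
  -- data
  let I := {g : G // g ∈ A ∧ g ≠ 1}
  have hfin : Fintype I := Fintype.subtype (A.filter fun g => g ≠ 1) (by intro x; simp)
  have hdata : ∀ g : I, ∃ (n : ℕ) (φ : G → Equiv.Perm (Fin n)) (f : Fin n → ℝ) (s : ℝ),
      0 < s ∧ φ 1 = 1 ∧ (∀ a ∈ A, ∑ y, (f (φ a y) - f y) ^ 2 ≤ ε' * s) ∧
      (∀ a ∈ A, ∀ b ∈ A, a * b ∈ A →
        ∑ y ∈ univ.filter (fun y => φ (a * b) y ≠ φ a (φ b y)), f y ^ 2 ≤ ε' * s) ∧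
      (∑ y ∈ univ.filter (fun y => φ g.1 y ≠ y), f y ^ 2 = s) := by
    rintro ⟨g, hgA, hg1⟩
    obtain ⟨Y, φ, f, p1, p2, p3, p4⟩ := h A h1A g hgA hg1 ε' hε'pos
    obtain ⟨n, φ', f', q1, q2, q3, q4⟩ := to_finite A φ p1 f
    refine ⟨n, φ', f', mass f (fun y => φ g y ≠ y), p2, q1, ?_, ?_, q4 g hgA⟩
    · intro a ha; rw [q2 a ha]; exact p3 a ha
    · intro a ha b hb hab; rw [q3 a ha b hb hab]; exact p4 a ha b hb hab
  choose n φ f s hs hφ1 hE he hsg using hdata
  let Y := Σ g : I, Fin (n g)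
  let Ψ : G → Equiv.Perm (Σ g : I, Fin (n g)) := fun a => Equiv.sigmaCongrRight fun g => φ g a
  let F : (Σ g : I, Fin (n g)) → ℝ := fun y => f y.1 y.2 / Real.sqrt (s y.1)
  have hIcard : (Fintype.card I : ℝ) ≤ C := by
    have : Fintype.card I ≤ A.card := by
      rw [Fintype.card_of_subtype (A.filter fun g => g ≠ 1) (by intro x; simp)]
      exact card_filter_le _ _
    have h2 : (Fintype.card I : ℝ) ≤ A.card := by exact_mod_cast this
    rw [hC]; linarith
  have key := local_sofic (Y := Σ g : I, Fin (n g)) A Ψ (by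
      ext1 ⟨g, y⟩
      show (⟨g, φ g 1 y⟩ : Σ g : I, Fin (n g)) = ⟨g, y⟩
      rw [hφ1 g]; rfl) F K (C * ε') ε hε hε1 hK hK1 ?_ ?_ ?_ ?_ ?_
  · obtain ⟨m, hm, ψ, h1, h2, h3⟩ := key
    refine ⟨m, hm, ψ, h1, fun a ha b hb hab => (h2 a ha b hb hab).trans_le hεε, fun a ha ha1 => ?_⟩
    have := h3 a ha ha1
    linarith
  · have : K * (C * ε') = (ε / 32) ^ 2 := by
      rw [hε']; field_simp
    rw [this]
    nlinarith
  · have : K * (C * ε') = (ε / 32) ^ 2 := by
      rw [hε']; field_simp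
    rw [this, Real.sqrt_sq (by positivity)]
    linarith
  · intro a ha
    rw [Fintype.sum_sigma]
    calc ∑ g : I, ∑ y, (F (Ψ a ⟨g, y⟩) - F ⟨g, y⟩) ^ 2 ≤ ∑ g : I, ε' := by
          refine sum_le_sum fun g _ => ?_
          have h1 : ∀ y, (F (Ψ a ⟨g, y⟩) - F ⟨g, y⟩) ^ 2 = (f g (φ g a y) - f g y) ^ 2 / s g := by
            intro y
            show (f g (φ g a y) / Real.sqrt (s g) - f g y / Real.sqrt (s g)) ^ 2 = _
            rw [← sub_div, div_pow, Real.sq_sqrt (hs g).le]
          simp_rw [h1]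
          rw [← sum_div, div_le_iff₀ (hs g)]
          exact hE g a ha
      _ = Fintype.card I * ε' := by simp
      _ ≤ C * ε' := mul_le_mul_of_nonneg_right hIcard hε'pos.le
  · intro a ha b hb hab
    rw [sum_filter, Fintype.sum_sigma]
    calc ∑ g : I, ∑ y, (if Ψ (a * b) ⟨g, y⟩ ≠ Ψ a (Ψ b ⟨g, y⟩) then F ⟨g, y⟩ ^ 2 else 0)
        ≤ ∑ g : I, ε' := by
          refine sum_le_sum fun g _ => ?_
          have h1 : ∀ y, (if Ψ (a * b) ⟨g, y⟩ ≠ Ψ a (Ψ b ⟨g, y⟩) then F ⟨g, y⟩ ^ 2 else 0) =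
              (if φ g (a * b) y ≠ φ g a (φ g b y) then f g y ^ 2 else 0) / s g := by
            intro y
            have h2 : (Ψ (a * b) ⟨g, y⟩ ≠ Ψ a (Ψ b ⟨g, y⟩)) ↔
                (φ g (a * b) y ≠ φ g a (φ g b y)) := by
              show ((⟨g, φ g (a * b) y⟩ : Σ g : I, Fin (n g)) ≠ ⟨g, φ g a (φ g b y)⟩) ↔ _
              simp
            simp only [h2]
            split_ifs
            · show (f g y / Real.sqrt (s g)) ^ 2 = _
              rw [div_pow, Real.sq_sqrt (hs g).le]
            · simp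
          simp_rw [h1]
          rw [← sum_div, div_le_iff₀ (hs g), ← sum_filter]
          exact he g a ha b hb hab
      _ = Fintype.card I * ε' := by simp
      _ ≤ C * ε' := mul_le_mul_of_nonneg_right hIcard hε'pos.le
  · intro g hg hg1
    rw [sum_filter, Fintype.sum_sigma]
    have h0 : ∀ g' : I, 0 ≤ ∑ y, (if Ψ g ⟨g', y⟩ ≠ ⟨g', y⟩ then F ⟨g', y⟩ ^ 2 else 0) := by
      intro g'
      refine sum_nonneg fun y _ => ?_
      split_ifs <;> positivity
    refine le_trans ?_ (single_le_sum (fun g' _ => h0 g') (mem_univ (⟨g, hg, hg1⟩ : I)))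
    set g' : I := ⟨g, hg, hg1⟩ with hg'
    have h1 : ∀ y, (if Ψ g ⟨g', y⟩ ≠ ⟨g', y⟩ then F ⟨g', y⟩ ^ 2 else 0) =
        (if φ g' g y ≠ y then f g' y ^ 2 else 0) / s g' := by
      intro y
      have h2 : (Ψ g ⟨g', y⟩ ≠ ⟨g', y⟩) ↔ (φ g' g y ≠ y) := by
        show ((⟨g', φ g' g y⟩ : Σ g : I, Fin (n g)) ≠ ⟨g', y⟩) ↔ _
        simp
      simp only [h2]
      split_ifs
      · show (f g' y / Real.sqrt (s g')) ^ 2 = _
        rw [div_pow, Real.sq_sqrt (hs g').le]
      · simp
    simp_rw [h1]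
    rw [← sum_div, ← sum_filter]
    have := hsg g'
    rw [this, div_self (hs g').ne']

end Pool.Agent.H21R2
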