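import Mathlib

/-!
Definitions used in the hand-ins on soficity: soficity itself, the weighted criterion,
recurrence of simple random walk, and wobbling groups.
-/

namespace Pool.Agent.H21R2

open Finset

section Sofic

/-- Normalised Hamming distance on `Sym(n)`: the proportion of points where the two
permutations differ. -/
noncomputable def hamm {n : ℕ} (σ τ : Equiv.Perm (Fin n)) : ℝ :=
  ((univ.filter fun i => σ i ≠ τ i).card : ℝ) / n

/-- Soficity, exactly as in the problem file. -/
def IsSofic (G : Type*) [Group G] : Prop :=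
  ∀ A : Finset G, (1 : G) ∈ A → ∀ ε : ℝ, 0 < ε →
    ∃ n : ℕ, 1 ≤ n ∧ ∃ φ : G → Equiv.Perm (Fin n),
      φ 1 = 1 ∧
      (∀ a ∈ A, ∀ b ∈ A, a * b ∈ A → hamm (φ (a * b)) (φ a * φ b) < ε) ∧
      ∀ a ∈ A, a ≠ 1 → 1 - ε ≤ hamm (φ a) 1

open Classical in
/-- The `f`-mass of the set of points with property `P`: the sum of `f y ^ 2` over them. -/
noncomputable def mass {Y : Type*} (f : Y →₀ ℝ) (P : Y → Prop) : ℝ :=
  ∑ y ∈ f.support.filter P, f y ^ 2

/-- The energy of `f` along the permutation `σ`: the sum over all `y` of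
`(f (σ y) - f y) ^ 2` (only finitely many terms are nonzero). -/
noncomputable def energy {Y : Type*} (f : Y →₀ ℝ) (σ : Equiv.Perm Y) : ℝ :=
  ∑' y, (f (σ y) - f y) ^ 2

/-- **The weighted criterion.**  The energies and the errors, measured with the finitely
supported weight `f` on a possibly infinite set `Y`, need only be small compared with the
signal of one given element `g`. -/
def WeightedCriterion.{u, v} (G : Type v) [Group G] : Prop :=
  ∀ A : Finset G, (1 : G) ∈ A → ∀ g ∈ A, g ≠ 1 → ∀ ε : ℝ, 0 < ε →
    ∃ (Y : Type u) (φ : G → Equiv.Perm Y) (f : Y →₀ ℝ),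
      φ 1 = 1 ∧
      0 < mass f (fun y => φ g y ≠ y) ∧
      (∀ a ∈ A, energy f (φ a) ≤ ε * mass f (fun y => φ g y ≠ y)) ∧
      (∀ a ∈ A, ∀ b ∈ A, a * b ∈ A →
        mass f (fun y => φ (a * b) y ≠ φ a (φ b y)) ≤ ε * mass f (fun y => φ g y ≠ y))

end Sofic

section Graphs

variable {X : Type*}

open Classical in
/-- `stepProb Γ n x y` is the probability that the simple random walk on `Γ` started at `x`
is at `y` after `n` steps. -/
noncomputable def stepProb (Γ : SimpleGraph X) [Γ.LocallyFinite] : ℕ → X → X → ℝ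
  | 0, x, y => if x = y then 1 else 0
  | n + 1, x, y => (∑ z ∈ Γ.neighborFinset x, stepProb Γ n z y) / Γ.degree x

/-- The simple random walk on `Γ` is recurrent: the expected number of visits to some vertex,
for the walk started there, is infinite. -/
def Recurrent (Γ : SimpleGraph X) [Γ.LocallyFinite] : Prop :=
  ∃ x, ¬ Summable fun n => stepProb Γ n x x

/-- The wobbling group `W(Γ)`: all permutations of the vertex set that move every vertex by a
uniformly bounded distance. -/
def wobbling (Γ : SimpleGraph X) : Subgroup (Equiv.Perm X) where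
  carrier := {σ | ∃ r : ℕ, ∀ x, Γ.edist x (σ x) ≤ r}
  mul_mem' := by
    rintro σ τ ⟨r, hr⟩ ⟨s, hs⟩
    refine ⟨s + r, fun x => ?_⟩
    calc Γ.edist x (σ (τ x)) ≤ Γ.edist x (τ x) + Γ.edist (τ x) (σ (τ x)) := SimpleGraph.edist_triangle
      _ ≤ s + r := add_le_add (hs x) (hr (τ x))
      _ = ((s + r : ℕ) : ℕ∞) := by push_cast; rfl
  one_mem' := ⟨0, fun x => by simp⟩
  inv_mem' := by
    rintro σ ⟨r, hr⟩
    refine ⟨r, fun x => ?_⟩
    have := hr (σ⁻¹ x)
    rw [SimpleGraph.edist_comm]
    simpa using this

/-- The action of `Sym(X)` on the group `L^X` of all functions `X → L` (with pointwise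
multiplication) by permuting the coordinates. -/
def shift (X L : Type*) [Group L] : Equiv.Perm X →* MulAut (X → L) where
  toFun σ :=
    { toFun := fun c x => c (σ⁻¹ x)
      invFun := fun c x => c (σ x)
      left_inv := fun c => by funext x; simp
      right_inv := fun c => by funext x; simp
      map_mul' := fun _ _ => rfl }
  map_one' := rfl
  map_mul' σ τ := by
    ext c x
    simp [MulAut.mul_apply]

/-- The unrestricted permutational wreath product `L ≀≀ W(Γ) = L^X ⋊ W(Γ)`. -/
abbrev WreathWobbling (L : Type*) [Group L] (Γ : SimpleGraph X) :=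
  (X → L) ⋊[(shift X L).comp (wobbling Γ).subtype] (wobbling Γ)

end Graphs

end Pool.Agent.H21R2
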