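import Pool.Agent.H13.L.S8.H21R2.Core

namespace Pool.Agent.H21R2

open Finset

section Power

variable {X : Type*} [Fintype X]

/-- the power function -/
def powFun (N : ℕ) (h : X → ℝ) (z : Fin N → X) : ℝ := ∏ i, h (z i)

theorem sum_prod_eq (N : ℕ) (k : Fin N → X → ℝ) :
    ∑ z : Fin N → X, ∏ i, k i (z i) = ∏ i, ∑ x, k i x := by
  classical
  rw [Finset.prod_univ_sum]
  simp

theorem sum_powFun_sq (N : ℕ) (h : X → ℝ) (h1 : ∑ x, h x ^ 2 = 1) :
    ∑ z, powFun N h z ^ 2 = 1 := by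
  have : ∀ z : Fin N → X, powFun N h z ^ 2 = ∏ i, (h (z i)) ^ 2 := by
    intro z; rw [powFun, prod_pow]
  simp_rw [this]
  rw [sum_prod_eq N (fun _ x => h x ^ 2)]
  simp [h1]

/-- the coordinatewise permutation -/
def powPerm (N : ℕ) (φ : Equiv.Perm X) : Equiv.Perm (Fin N → X) :=
  Equiv.piCongrRight fun _ => φ

omit [Fintype X] in
theorem powPerm_apply (N : ℕ) (φ : Equiv.Perm X) (z : Fin N → X) (i : Fin N) :
    powPerm N φ z i = φ (z i) := rfl

theorem sum_perm_sq (h : X → ℝ) (φ : Equiv.Perm X) : ∑ x, h (φ x) ^ 2 = ∑ x, h x ^ 2 :=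
  Equiv.sum_comp φ (fun x => h x ^ 2)

theorem energy_pow_le (N : ℕ) (h : X → ℝ) (h1 : ∑ x, h x ^ 2 = 1) (φ : Equiv.Perm X) :
    ∑ z, (powFun N h (powPerm N φ z) - powFun N h z) ^ 2 ≤ N * ∑ x, (h (φ x) - h x) ^ 2 := by
  set c := ∑ x, h (φ x) * h x with hc
  have hE : ∑ x, (h (φ x) - h x) ^ 2 = 2 - 2 * c := by
    have : ∀ x, (h (φ x) - h x) ^ 2 = h (φ x) ^ 2 + h x ^ 2 - 2 * (h (φ x) * h x) := by
      intro x; ring
    simp_rw [this]
    rw [sum_sub_distrib, sum_add_distrib, sum_perm_sq, h1, ← mul_sum]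
    ring
  have hc1 : -1 ≤ c := by
    have h2 : 0 ≤ ∑ x, (h (φ x) + h x) ^ 2 := sum_nonneg fun x _ => sq_nonneg _
    have : ∀ x, (h (φ x) + h x) ^ 2 = h (φ x) ^ 2 + h x ^ 2 + 2 * (h (φ x) * h x) := by
      intro x; ring
    simp_rw [this] at h2
    rw [sum_add_distrib, sum_add_distrib, sum_perm_sq, h1, ← mul_sum] at h2
    linarith
  have h2 : ∑ z, (powFun N h (powPerm N φ z) - powFun N h z) ^ 2 = 2 - 2 * c ^ N := by
    have : ∀ z, (powFun N h (powPerm N φ z) - powFun N h z) ^ 2 =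
        powFun N h (powPerm N φ z) ^ 2 + powFun N h z ^ 2 -
          2 * (powFun N h (powPerm N φ z) * powFun N h z) := by
      intro z; ring
    simp_rw [this]
    rw [sum_sub_distrib, sum_add_distrib, sum_perm_sq (powFun N h), sum_powFun_sq N h h1, ← mul_sum]
    have h3 : ∑ z, powFun N h (powPerm N φ z) * powFun N h z = c ^ N := by
      have : ∀ z, powFun N h (powPerm N φ z) * powFun N h z = ∏ i, (h (φ (z i)) * h (z i)) := by
        intro z; rw [powFun, powFun, ← prod_mul_distrib]; rfl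
      simp_rw [this]
      rw [sum_prod_eq N (fun _ x => h (φ x) * h x)]
      simp [hc]
    rw [h3]; ring
  rw [h2, hE]
  have h3 := one_add_mul_le_pow (a := c - 1) (by linarith) N
  have h4 : 1 + (c - 1) = c := by ring
  rw [h4] at h3
  linarith

theorem sum_abs_sq_sub_le {Z : Type*} [Fintype Z] (H : Z → ℝ) (Φ : Equiv.Perm Z)
    (h1 : ∑ z, H z ^ 2 = 1) (E : ℝ) (hE : ∑ z, (H (Φ z) - H z) ^ 2 ≤ E) :
    ∑ z, |H (Φ z) ^ 2 - H z ^ 2| ≤ 2 * Real.sqrt E := by
  have h2 : ∀ z, |H (Φ z) ^ 2 - H z ^ 2| = |H (Φ z) - H z| * |H (Φ z) + H z| := by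
    intro z; rw [← abs_mul]; congr 1; ring
  simp_rw [h2]
  have h3 := Finset.sum_mul_sq_le_sq_mul_sq univ (fun z => |H (Φ z) - H z|) (fun z => |H (Φ z) + H z|)
  simp_rw [sq_abs] at h3
  have h4 : ∑ z, (H (Φ z) + H z) ^ 2 ≤ 4 := by
    have : ∀ z, (H (Φ z) + H z) ^ 2 ≤ 2 * H (Φ z) ^ 2 + 2 * H z ^ 2 := by
      intro z; nlinarith [sq_nonneg (H (Φ z) - H z)]
    calc ∑ z, (H (Φ z) + H z) ^ 2 ≤ ∑ z, (2 * H (Φ z) ^ 2 + 2 * H z ^ 2) :=
          sum_le_sum fun z _ => this z
      _ = 4 := by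
          rw [sum_add_distrib, ← mul_sum, ← mul_sum, sum_perm_sq, h1]; norm_num
  have hE0 : 0 ≤ E := le_trans (sum_nonneg fun z _ => sq_nonneg _) hE
  have h5 : (∑ z, |H (Φ z) - H z| * |H (Φ z) + H z|) ^ 2 ≤ (2 * Real.sqrt E) ^ 2 := by
    rw [mul_pow, Real.sq_sqrt hE0]
    have h6 : 0 ≤ ∑ z, (H (Φ z) - H z) ^ 2 := sum_nonneg fun z _ => sq_nonneg _
    nlinarith
  exact le_of_sq_le_sq h5 (by positivity)

theorem mass_exists_le (N : ℕ) (h : X → ℝ) (h1 : ∑ x, h x ^ 2 = 1) (P : X → Prop)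
    [DecidablePred P] [DecidablePred fun z : Fin N → X => ∃ i, P (z i)] :
    ∑ z ∈ univ.filter (fun z : Fin N → X => ∃ i, P (z i)), powFun N h z ^ 2 ≤
      N * ∑ x ∈ univ.filter P, h x ^ 2 := by
  classical
  set q := ∑ x ∈ univ.filter P, h x ^ 2 with hq
  have h2 : ∀ i : Fin N, ∑ z ∈ univ.filter (fun z : Fin N → X => P (z i)), powFun N h z ^ 2 = q := by
    intro i
    rw [sum_filter]
    have : ∀ z : Fin N → X, (if P (z i) then powFun N h z ^ 2 else 0) =
        ∏ j, (if j = i then (if P (z j) then h (z j) ^ 2 else 0) else h (z j) ^ 2) := by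
      intro z
      by_cases hz : P (z i)
      · rw [if_pos hz, powFun, ← prod_pow]
        refine prod_congr rfl fun j _ => ?_
        by_cases hj : j = i
        · subst hj; simp [hz]
        · simp [hj]
      · rw [if_neg hz]
        symm
        apply prod_eq_zero (mem_univ i)
        simp [hz]
    simp_rw [this]
    rw [sum_prod_eq N (fun j x => if j = i then (if P x then h x ^ 2 else 0) else h x ^ 2)]
    rw [prod_eq_single i]
    · simp [hq, sum_filter]
    · intro j _ hj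
      simp [hj, h1]
    · simp
  calc ∑ z ∈ univ.filter (fun z : Fin N → X => ∃ i, P (z i)), powFun N h z ^ 2
      = ∑ z : Fin N → X, (if ∃ i, P (z i) then powFun N h z ^ 2 else 0) := by rw [sum_filter]
    _ ≤ ∑ z : Fin N → X, ∑ i : Fin N, (if P (z i) then powFun N h z ^ 2 else 0) := by
        refine sum_le_sum fun z _ => ?_
        have hnn : ∀ i ∈ (univ : Finset (Fin N)),
            (0 : ℝ) ≤ (if P (z i) then powFun N h z ^ 2 else 0) := by
          intro i _; split_ifs <;> positivity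
        split_ifs with hz
        · obtain ⟨i, hi⟩ := hz
          have := single_le_sum hnn (mem_univ i)
          simpa [hi] using this
        · exact sum_nonneg hnn
    _ = ∑ i : Fin N, ∑ z ∈ univ.filter (fun z : Fin N → X => P (z i)), powFun N h z ^ 2 := by
        rw [sum_comm]
        exact sum_congr rfl fun i _ => (sum_filter _ _).symm
    _ = N * q := by simp [h2]

theorem mass_forall_eq (N : ℕ) (h : X → ℝ) (P : X → Prop)
    [DecidablePred P] [DecidablePred fun z : Fin N → X => ∀ i, P (z i)] :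
    ∑ z ∈ univ.filter (fun z : Fin N → X => ∀ i, P (z i)), powFun N h z ^ 2 =
      (∑ x ∈ univ.filter P, h x ^ 2) ^ N := by
  classical
  rw [sum_filter]
  have : ∀ z : Fin N → X, (if ∀ i, P (z i) then powFun N h z ^ 2 else 0) =
      ∏ j, (if P (z j) then h (z j) ^ 2 else 0) := by
    intro z
    by_cases hz : ∀ i, P (z i)
    · rw [if_pos hz, powFun, ← prod_pow]
      refine prod_congr rfl fun j _ => ?_
      simp [hz j]
    · rw [if_neg hz]
      push Not at hz
      obtain ⟨i, hi⟩ := hz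
      symm
      apply prod_eq_zero (mem_univ i)
      simp [hi]
  simp_rw [this]
  rw [sum_prod_eq N (fun j x => if P x then h x ^ 2 else 0)]
  simp [sum_filter]

end Power

section Pad

variable {Y : Type*} [Fintype Y]

/-- padding by one extra fixed point, with total mass normalised to `1` -/
noncomputable def padFun (Λ : ℝ) (f : Y → ℝ) : Option Y → ℝ
  | none => Real.sqrt ((Λ - ∑ y, f y ^ 2) / Λ)
  | some y => f y / Real.sqrt Λ

/-- padding of a permutation -/
def padPerm (φ : Equiv.Perm Y) : Equiv.Perm (Option Y) := Equiv.optionCongr φ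

theorem sum_padFun_sq (Λ : ℝ) (f : Y → ℝ) (hΛ : 0 < Λ) (hf : ∑ y, f y ^ 2 ≤ Λ) :
    ∑ x, padFun Λ f x ^ 2 = 1 := by
  rw [Fintype.sum_option]
  simp only [padFun]
  rw [Real.sq_sqrt (div_nonneg (by linarith) hΛ.le)]
  simp_rw [div_pow, Real.sq_sqrt hΛ.le]
  rw [← sum_div]
  field_simp
  ring

theorem pad_energy (Λ : ℝ) (f : Y → ℝ) (hΛ : 0 < Λ) (φ : Equiv.Perm Y) :
    ∑ x, (padFun Λ f (padPerm φ x) - padFun Λ f x) ^ 2 = (∑ y, (f (φ y) - f y) ^ 2) / Λ := by
  rw [Fintype.sum_option]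
  simp only [padFun, padPerm, Equiv.optionCongr_apply, Option.map_none, Option.map_some, sub_self]
  simp_rw [← sub_div, div_pow, Real.sq_sqrt hΛ.le]
  rw [← sum_div]
  simp

theorem pad_mass (Λ : ℝ) (f : Y → ℝ) (hΛ : 0 < Λ) (P : Option Y → Prop) [DecidablePred P]
    [DecidablePred fun y => P (some y)] (hP : ¬ P none) :
    ∑ x ∈ univ.filter P, padFun Λ f x ^ 2 =
      (∑ y ∈ univ.filter (fun y => P (some y)), f y ^ 2) / Λ := by
  rw [sum_filter, Fintype.sum_option, sum_filter, if_neg hP, zero_add, sum_div]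
  refine sum_congr rfl fun y _ => ?_
  split_ifs
  · simp only [padFun]
    rw [div_pow, Real.sq_sqrt hΛ.le]
  · simp

end Pad

/-- The finite core: a weighted approximation in which every element of `A` different from `1`
has signal at least `1`, and the energies and errors are small, gives a sofic approximation. -/
theorem local_sofic {G : Type*} [Group G] {Y : Type*} [Fintype Y] [DecidableEq Y]
    (A : Finset G) (φ : G → Equiv.Perm Y) (hφ1 : φ 1 = 1) (f : Y → ℝ) (K η ε : ℝ)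
    (hε : 0 < ε) (hε1 : ε ≤ 1) (hK : 0 < K)
    (hK1 : Real.exp (-K) ≤ ε / 16) (hKη : K * η ≤ ε / 16) (hKη2 : 2 * Real.sqrt (K * η) ≤ ε / 16)
    (hE : ∀ a ∈ A, ∑ y, (f (φ a y) - f y) ^ 2 ≤ η)
    (he : ∀ a ∈ A, ∀ b ∈ A, a * b ∈ A →
      ∑ y ∈ univ.filter (fun y => φ (a * b) y ≠ φ a (φ b y)), f y ^ 2 ≤ η)
    (hs : ∀ g ∈ A, g ≠ 1 → 1 ≤ ∑ y ∈ univ.filter (fun y => φ g y ≠ y), f y ^ 2) :
    ∃ n : ℕ, 1 ≤ n ∧ ∃ φ : G → Equiv.Perm (Fin n),
      φ 1 = 1 ∧
      (∀ a ∈ A, ∀ b ∈ A, a * b ∈ A → hamm (φ (a * b)) (φ a * φ b) < ε) ∧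
      ∀ a ∈ A, a ≠ 1 → 1 - ε ≤ hamm (φ a) 1 := by
  classical
  obtain ⟨N, hN⟩ := exists_nat_gt (K * (∑ y, f y ^ 2 + 1))
  have hS : 0 ≤ ∑ y, f y ^ 2 := sum_nonneg fun y _ => sq_nonneg _
  set Λ : ℝ := N / K with hΛdef
  have hΛge : ∑ y, f y ^ 2 + 1 ≤ Λ := by
    rw [hΛdef, le_div_iff₀ hK]; nlinarith
  have hΛ : 0 < Λ := by linarith
  have hNΛ : (N : ℝ) / Λ = K := by
    have hN0 : (0 : ℝ) < N := by nlinarith
    rw [hΛdef]; field_simp
  have h1 := sum_padFun_sq Λ f hΛ (by linarith)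
  have key := discretize (Z := Fin N → Option Y) A (fun a => powPerm N (padPerm (φ a)))
    (by
      ext1 z
      funext i
      show padPerm (φ 1) (z i) = z i
      rw [hφ1]
      cases z i <;> simp [padPerm])
    (fun z => powFun N (padFun Λ f) z ^ 2) (fun z => sq_nonneg _)
    (sum_powFun_sq N _ h1) ε hε hε1 ?_ ?_ ?_
  · exact key
  · intro a ha
    have hEa : ∑ z, (powFun N (padFun Λ f) (powPerm N (padPerm (φ a)) z) -
        powFun N (padFun Λ f) z) ^ 2 ≤ K * η := by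
      refine (energy_pow_le N _ h1 _).trans ?_
      rw [pad_energy Λ f hΛ]
      have := mul_le_mul_of_nonneg_left (hE a ha) hK.le
      calc (N : ℝ) * ((∑ y, (f (φ a y) - f y) ^ 2) / Λ) = (N / Λ) * ∑ y, (f (φ a y) - f y) ^ 2 := by
            ring
        _ ≤ K * η := by rw [hNΛ]; exact this
    exact (sum_abs_sq_sub_le _ _ (sum_powFun_sq N _ h1) _ hEa).trans hKη2
  · intro a ha b hb hab
    have hset : (univ.filter fun z : Fin N → Option Y =>
        powPerm N (padPerm (φ (a * b))) z ≠ powPerm N (padPerm (φ a)) (powPerm N (padPerm (φ b)) z))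
        = univ.filter fun z : Fin N → Option Y => ∃ i,
          padPerm (φ (a * b)) (z i) ≠ padPerm (φ a) (padPerm (φ b) (z i)) := by
      ext z
      simp only [mem_filter, mem_univ, true_and, ne_eq, funext_iff, powPerm_apply, not_forall]
    rw [hset]
    refine (mass_exists_le N _ h1 (fun x => padPerm (φ (a * b)) x ≠
      padPerm (φ a) (padPerm (φ b) x))).trans ?_
    rw [pad_mass Λ f hΛ _ (by simp [padPerm])]
    have hset2 : (univ.filter fun y => padPerm (φ (a * b)) (some y) ≠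
      padPerm (φ a) (padPerm (φ b) (some y))) = univ.filter fun y => φ (a * b) y ≠ φ a (φ b y) := by
      ext y
      simp [padPerm]
    rw [hset2]
    have := mul_le_mul_of_nonneg_left (he a ha b hb hab) hK.le
    calc (N : ℝ) * ((∑ y ∈ univ.filter (fun y => φ (a * b) y ≠ φ a (φ b y)), f y ^ 2) / Λ)
        = (N / Λ) * ∑ y ∈ univ.filter (fun y => φ (a * b) y ≠ φ a (φ b y)), f y ^ 2 := by ring
      _ ≤ K * η := by rw [hNΛ]; exact this
      _ ≤ ε / 16 := hKη
  · intro g hg hg1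
    have hset : (univ.filter fun z : Fin N → Option Y =>
        powPerm N (padPerm (φ g)) z = z)
        = univ.filter fun z : Fin N → Option Y => ∀ i, padPerm (φ g) (z i) = z i := by
      ext z
      simp only [mem_filter, mem_univ, true_and, funext_iff, powPerm_apply]
    rw [hset, mass_forall_eq N _ (fun x => padPerm (φ g) x = x)]
    have hcompl : ∑ x ∈ univ.filter (fun x => padPerm (φ g) x = x), padFun Λ f x ^ 2 =
        1 - (∑ y ∈ univ.filter (fun y => φ g y ≠ y), f y ^ 2) / Λ := by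
      have h2 := sum_filter_add_sum_filter_not (univ : Finset (Option Y))
        (fun x => padPerm (φ g) x = x) (fun x => padFun Λ f x ^ 2)
      rw [h1, pad_mass Λ f hΛ (fun x => ¬ padPerm (φ g) x = x) (by simp [padPerm])] at h2
      have hset2 : (univ.filter fun y => ¬ padPerm (φ g) (some y) = some y) =
          univ.filter fun y => φ g y ≠ y := by
        ext y
        simp [padPerm]
      rw [hset2] at h2
      linarith
    rw [hcompl]
    set s := ∑ y ∈ univ.filter (fun y => φ g y ≠ y), f y ^ 2 with hsdef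
    have hs1 : 1 ≤ s := hs g hg hg1
    have hsle : s ≤ ∑ y, f y ^ 2 := sum_le_sum_of_subset_of_nonneg (filter_subset _ _)
      fun y _ _ => sq_nonneg _
    have h3 : 0 ≤ 1 - s / Λ := by
      rw [sub_nonneg, div_le_one hΛ]; linarith
    have h4 : 1 - s / Λ ≤ Real.exp (-(s / Λ)) := Real.one_sub_le_exp_neg _
    calc (1 - s / Λ) ^ N ≤ Real.exp (-(s / Λ)) ^ N := pow_le_pow_left₀ h3 h4 N
      _ = Real.exp (-(K * s)) := by
          rw [← Real.exp_nat_mul, ← hNΛ]; ring_nf
      _ ≤ Real.exp (-K) := by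
          apply Real.exp_le_exp.mpr; nlinarith
      _ ≤ ε / 16 := hK1

end Pool.Agent.H21R2
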